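import Pool.Agent.H311Z.SF.Main

namespace Pool.Agent.Results.MP_48904d_ag.NotCombinatorial

open Pool.Agent.H311Z.SF

/-- Two arrangements of twelve hyperplanes in `ℙ⁴` over `ℂ` with isomorphic intersection lattices,
one stably free and the other not. -/
theorem result : ∃ A B : Fin 12 → Fin (4 + 1) → ℂ, IsArrangement A ∧ IsArrangement B ∧
    Nonempty (lattice A ≃o lattice B) ∧ StablyFree A ∧ ¬ StablyFree B := main

end Pool.Agent.Results.MP_48904d_ag.NotCombinatorial
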